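import Mathlib

/-!
Eight points in the plane, four red and four blue, without a monochromatic circle, which are not of
any of the types of the question.
-/

namespace Pool.Agent.Results.MP_048963_co.EightPoints

open Filter Topology

/-- The squared distance of two points of the plane. -/
def dsq (o p : ℝ × ℝ) : ℝ := (p.1 - o.1) ^ 2 + (p.2 - o.2) ^ 2

/-- `Γ` is a circle (of positive radius). -/
def IsCircle (Γ : Set (ℝ × ℝ)) : Prop := ∃ (o : ℝ × ℝ) (r : ℝ), 0 < r ∧ Γ = {p | dsq o p = r ^ 2}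

/-- `Γ` is a line. -/
def IsLine (Γ : Set (ℝ × ℝ)) : Prop :=
  ∃ a b c : ℝ, (a ≠ 0 ∨ b ≠ 0) ∧ Γ = {p | a * p.1 + b * p.2 = c}

/-- `Γ` is an ellipse. -/
def IsEllipse (Γ : Set (ℝ × ℝ)) : Prop :=
  ∃ (m : ℝ × ℝ) (a b c : ℝ), 0 < a ∧ b ^ 2 < 4 * a * c ∧
    Γ = {p | a * (p.1 - m.1) ^ 2 + b * (p.1 - m.1) * (p.2 - m.2) + c * (p.2 - m.2) ^ 2 = 1}

/-- `Γ` is the union of two disjoint circles. -/
def IsTwoDisjointCircles (Γ : Set (ℝ × ℝ)) : Prop :=
  ∃ C₁ C₂ : Set (ℝ × ℝ), IsCircle C₁ ∧ IsCircle C₂ ∧ Disjoint C₁ C₂ ∧ Γ = C₁ ∪ C₂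

/-- The form `(u x + v y) (x ^ 2 + y ^ 2) + q(x, y, z) z`,
`q = a x ^ 2 + b x y + c y ^ 2 + d x z + e y z + f z ^ 2`. -/
noncomputable def cubicForm (u v a b c d e f : ℝ) : MvPolynomial (Fin 3) ℝ :=
  (MvPolynomial.C u * MvPolynomial.X 0 + MvPolynomial.C v * MvPolynomial.X 1) *
      (MvPolynomial.X 0 ^ 2 + MvPolynomial.X 1 ^ 2) +
    (MvPolynomial.C a * MvPolynomial.X 0 ^ 2 + MvPolynomial.C b * MvPolynomial.X 0 * MvPolynomial.X 1 +
      MvPolynomial.C c * MvPolynomial.X 1 ^ 2 + MvPolynomial.C d * MvPolynomial.X 0 * MvPolynomial.X 2 +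
      MvPolynomial.C e * MvPolynomial.X 1 * MvPolynomial.X 2 + MvPolynomial.C f * MvPolynomial.X 2 ^ 2) *
    MvPolynomial.X 2

/-- `G` is the equation of a circular cubic. -/
def IsCircularCubic (G : MvPolynomial (Fin 3) ℝ) : Prop :=
  ∃ u v a b c d e f : ℝ, G = cubicForm u v a b c d e f

/-- `P` represents a singular point of the complex projective curve `G = 0`. -/
def IsSingularAt (G : MvPolynomial (Fin 3) ℝ) (P : Fin 3 → ℂ) : Prop :=
  P ≠ 0 ∧ ∀ i, MvPolynomial.aeval P (MvPolynomial.pderiv i G) = 0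

/-- `G = 0` is nonsingular. -/
def IsNonsingular (G : MvPolynomial (Fin 3) ℝ) : Prop := ∀ P : Fin 3 → ℂ, ¬ IsSingularAt G P

/-- `G = 0` is acnodal: it has exactly one singular point, which is real and is an isolated point of
the real projective curve. -/
def IsAcnodal (G : MvPolynomial (Fin 3) ℝ) : Prop :=
  ∃ P : Fin 3 → ℝ, IsSingularAt G (fun i => (P i : ℂ)) ∧
    (∀ Q : Fin 3 → ℂ, IsSingularAt G Q → ∃ t : ℂ, ∀ i, Q i = t * P i) ∧
    ∀ᶠ Q : Fin 3 → ℝ in 𝓝 P, MvPolynomial.eval Q G = 0 → ∃ t : ℝ, ∀ i, Q i = t * P i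

/-- The real affine points of the curve `G = 0`. -/
def realPoints (G : MvPolynomial (Fin 3) ℝ) : Set (ℝ × ℝ) :=
  {p | MvPolynomial.eval ![p.1, p.2, 1] G = 0}

/-- The inversion with centre `o` and radius `r`. -/
noncomputable def inv (o : ℝ × ℝ) (r : ℝ) (p : ℝ × ℝ) : ℝ × ℝ :=
  (o.1 + r ^ 2 / dsq o p * (p.1 - o.1), o.2 + r ^ 2 / dsq o p * (p.2 - o.2))

/-- `Γ` is a circular cubic that is elliptic or acnodal. -/
def IsGoodCubic (Γ : Set (ℝ × ℝ)) : Prop :=
  ∃ G, IsCircularCubic G ∧ (IsNonsingular G ∨ IsAcnodal G) ∧ Γ = realPoints G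

/-- `Γ` is a bicircular quartic of elliptic or acnodal type: the image of such a cubic under the
inversion with a centre `o` off the cubic (the point `o`, the image of infinity, belongs to `Γ`). -/
def IsGoodQuartic (Γ : Set (ℝ × ℝ)) : Prop :=
  ∃ G, IsCircularCubic G ∧ (IsNonsingular G ∨ IsAcnodal G) ∧
    ∃ (o : ℝ × ℝ) (r : ℝ), 0 < r ∧ o ∉ realPoints G ∧ Γ = insert o (inv o r '' realPoints G)

/-- `S` lies up to inversion on `Γ`. -/
def LiesUpToInversion (S Γ : Set (ℝ × ℝ)) : Prop :=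
  S ⊆ Γ ∨ ∃ (o : ℝ × ℝ) (r : ℝ), 0 < r ∧ o ∉ S ∧ inv o r '' S ⊆ Γ

/-- `C` is a monochromatic circle for the set of the red points `R` and the blue points `B`. -/
def IsMonochromaticCircle (R B : Set (ℝ × ℝ)) (C : Set (ℝ × ℝ)) : Prop :=
  IsCircle C ∧ 3 ≤ (C ∩ (R ∪ B)).ncard ∧ (C ∩ (R ∪ B) ⊆ R ∨ C ∩ (R ∪ B) ⊆ B)

/-- The statement of the question. -/
def Question : Prop :=
  ∀ R B : Finset (ℝ × ℝ), Disjoint R B →
    (∀ Γ, IsLine Γ ∨ IsCircle Γ → ¬ (R ∪ B : Set (ℝ × ℝ)) ⊆ Γ) →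
    (∀ C, ¬ IsMonochromaticCircle R B C) →
    (∃ C, IsCircle C ∧ ((R : Set (ℝ × ℝ)) ⊆ C ∨ (B : Set (ℝ × ℝ)) ⊆ C)) ∨
    ∃ Γ, (IsEllipse Γ ∨ IsTwoDisjointCircles Γ ∨ IsGoodCubic Γ ∨ IsGoodQuartic Γ) ∧
      LiesUpToInversion (R ∪ B : Set (ℝ × ℝ)) Γ

/-- Functions of the form
`l s ^ 2 + (u x + v y) s + a x ^ 2 + b x y + c y ^ 2 + d x + e y + f`, `s = x ^ 2 + y ^ 2`. -/
def pol (l u v a b c d e f : ℝ) (p : ℝ × ℝ) : ℝ :=
  l * (p.1 ^ 2 + p.2 ^ 2) ^ 2 + (u * p.1 + v * p.2) * (p.1 ^ 2 + p.2 ^ 2) +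
    a * p.1 ^ 2 + b * p.1 * p.2 + c * p.2 ^ 2 + d * p.1 + e * p.2 + f

/-- The space of these functions. -/
def V (F : ℝ × ℝ → ℝ) : Prop := ∃ l u v a b c d e f : ℝ, F = pol l u v a b c d e f

/-- `p` is a singular zero of `F` which is not isolated. -/
def Bad (F : ℝ × ℝ → ℝ) (p : ℝ × ℝ) : Prop :=
  F p = 0 ∧ HasFDerivAt F (0 : ℝ × ℝ →L[ℝ] ℝ) p ∧ ∃ᶠ q in 𝓝[≠] p, F q = 0

lemma dsq_nonneg (o p : ℝ × ℝ) : 0 ≤ dsq o p := by unfold dsq; positivity

lemma dsq_pos {o p : ℝ × ℝ} (h : p ≠ o) : 0 < dsq o p := by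
  refine lt_of_le_of_ne (dsq_nonneg o p) fun h0 => h ?_
  unfold dsq at h0
  have h1 : p.1 - o.1 = 0 := by nlinarith [sq_nonneg (p.1 - o.1), sq_nonneg (p.2 - o.2)]
  have h2 : p.2 - o.2 = 0 := by nlinarith [sq_nonneg (p.1 - o.1), sq_nonneg (p.2 - o.2)]
  exact Prod.ext (by linarith) (by linarith)

lemma dsq_inv {o p : ℝ × ℝ} {r : ℝ} (h : p ≠ o) : dsq o (inv o r p) = r ^ 4 / dsq o p := by
  have h0 := dsq_pos h
  have h1 : dsq o (inv o r p) = (r ^ 2 / dsq o p) ^ 2 * dsq o p := by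
    simp only [inv, dsq]; ring
  rw [h1]; field_simp

lemma inv_ne {o p : ℝ × ℝ} {r : ℝ} (hr : 0 < r) (h : p ≠ o) : inv o r p ≠ o := by
  intro h0
  have h1 := dsq_inv (r := r) h
  rw [h0] at h1
  have h2 : dsq o o = 0 := by simp [dsq]
  have h3 : 0 < r ^ 4 / dsq o p := div_pos (by positivity) (dsq_pos h)
  linarith

lemma inv_inv {o p : ℝ × ℝ} {r : ℝ} (hr : 0 < r) (h : p ≠ o) : inv o r (inv o r p) = p := by
  have h0 := dsq_pos h
  have h1 := dsq_inv (r := r) h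
  have e1 : (inv o r (inv o r p)).1 = o.1 + r ^ 2 / dsq o (inv o r p) * ((inv o r p).1 - o.1) := rfl
  have e2 : (inv o r (inv o r p)).2 = o.2 + r ^ 2 / dsq o (inv o r p) * ((inv o r p).2 - o.2) := rfl
  have e3 : (inv o r p).1 - o.1 = r ^ 2 / dsq o p * (p.1 - o.1) := by simp [inv]
  have e4 : (inv o r p).2 - o.2 = r ^ 2 / dsq o p * (p.2 - o.2) := by simp [inv]
  have hr0 : r ≠ 0 := hr.ne'
  have hd0 : dsq o p ≠ 0 := h0.ne'
  refine Prod.ext ?_ ?_
  · rw [e1, e3, h1]; field_simp; ring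
  · rw [e2, e4, h1]; field_simp; ring

/-- The curve `y ((x - 1) ^ 2 + y ^ 2 - 5) = 0` through the eight points. -/
def base (p : ℝ × ℝ) : ℝ := p.2 * ((p.1 - 1) ^ 2 + p.2 ^ 2 - 5)

/-- The four red points. -/
noncomputable def red : Finset (ℝ × ℝ) := {(1, 0), (2, 0), (6, 0), (3, 1)}

/-- The four blue points. -/
noncomputable def blue : Finset (ℝ × ℝ) := {(0, 0), (0, 2), (0, -2), (2, -2)}

/-- The eight points. -/
abbrev pts : Set (ℝ × ℝ) := (red : Set (ℝ × ℝ)) ∪ blue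

lemma mem_red {p : ℝ × ℝ} : p ∈ (red : Set (ℝ × ℝ)) ↔
    p = (1, 0) ∨ p = (2, 0) ∨ p = (6, 0) ∨ p = (3, 1) := by
  simp [red]

lemma mem_blue {p : ℝ × ℝ} : p ∈ (blue : Set (ℝ × ℝ)) ↔
    p = (0, 0) ∨ p = (0, 2) ∨ p = (0, -2) ∨ p = (2, -2) := by
  simp [blue]

lemma kernel {F : ℝ × ℝ → ℝ} (hF : V F) (h : ∀ p ∈ pts, F p = 0) : ∃ k, F = fun p => k * base p := by
  obtain ⟨l, u, v, a, b, c, d, e, f, rfl⟩ := hF
  have h1 := h (1, 0) (Or.inl (mem_red.2 (by simp)))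
  have h2 := h (2, 0) (Or.inl (mem_red.2 (by simp)))
  have h3 := h (6, 0) (Or.inl (mem_red.2 (by simp)))
  have h4 := h (3, 1) (Or.inl (mem_red.2 (by simp)))
  have h5 := h (0, 0) (Or.inr (mem_blue.2 (by simp)))
  have h6 := h (0, 2) (Or.inr (mem_blue.2 (by simp)))
  have h7 := h (0, -2) (Or.inr (mem_blue.2 (by simp)))
  have h8 := h (2, -2) (Or.inr (mem_blue.2 (by simp)))
  simp only [pol] at h1 h2 h3 h4 h5 h6 h7 h8
  norm_num at h1 h2 h3 h4 h5 h6 h7 h8
  have hl : l = 0 := by linarith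
  have hu : u = 0 := by linarith
  have ha : a = 0 := by linarith
  have hd : d = 0 := by linarith
  have hc : c = 0 := by linarith
  have he : e = -4 * v := by linarith
  have hb : b = -2 * v := by linarith
  refine ⟨v, ?_⟩
  funext p
  subst hl hu ha hd hc he hb h5
  simp only [pol, base]; ring

lemma bad_base (k : ℝ) {x : ℝ} (hx : (x - 1) ^ 2 = 5) : Bad (fun p => k * base p) (x, 0) := by
  refine ⟨by simp [base], ?_, ?_⟩
  · have h1 : HasFDerivAt (fun p : ℝ × ℝ => p.2) (ContinuousLinearMap.snd ℝ ℝ ℝ) (x, 0) :=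
      hasFDerivAt_snd
    have h2 : DifferentiableAt ℝ (fun p : ℝ × ℝ => (p.1 - 1) ^ 2 + p.2 ^ 2 - 5) (x, 0) := by
      fun_prop
    have h3 := (h1.mul h2.hasFDerivAt).const_mul k
    have h4 : ((x, (0 : ℝ)).1 - 1) ^ 2 + (x, (0 : ℝ)).2 ^ 2 - 5 = 0 := by
      simp only; rw [hx]; norm_num
    refine h3.congr_fderiv ?_
    rw [h4]
    simp
  · have h1 : Tendsto (fun t : ℝ => ((x + t, (0 : ℝ)) : ℝ × ℝ)) (𝓝[≠] 0) (𝓝[≠] (x, 0)) := by
      rw [tendsto_nhdsWithin_iff]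
      refine ⟨?_, ?_⟩
      · have : Continuous (fun t : ℝ => ((x + t, (0 : ℝ)) : ℝ × ℝ)) := by fun_prop
        have h := this.tendsto 0
        simp only [add_zero] at h
        exact h.mono_left nhdsWithin_le_nhds
      · filter_upwards [self_mem_nhdsWithin] with t ht h
        apply ht
        have : (x + t, (0 : ℝ)) = (x, 0) := h
        have := congrArg Prod.fst this
        simpa using this
    refine h1.frequently (Eventually.frequently (Eventually.of_forall fun t => ?_))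
    simp [base]

lemma differentiableAt_inv {o p : ℝ × ℝ} {r : ℝ} (h : p ≠ o) : DifferentiableAt ℝ (inv o r) p := by
  have h0 : (p.1 - o.1) ^ 2 + (p.2 - o.2) ^ 2 ≠ 0 := (dsq_pos h).ne'
  unfold inv dsq
  fun_prop (disch := exact h0)

lemma transfer {F F' : ℝ × ℝ → ℝ} {o : ℝ × ℝ} {r : ℝ} (hr : 0 < r)
    (hFF : ∀ p, p ≠ o → F' p = dsq o p ^ 2 * F (inv o r p)) {p₀ : ℝ × ℝ} (hp : p₀ ≠ o)
    (hb : Bad F' p₀) : Bad F (inv o r p₀) := by
  have hq := inv_ne hr hp
  have hqq := inv_inv hr hp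
  have hF : ∀ q, q ≠ o → F q = (dsq o q / r ^ 4) ^ 2 * F' (inv o r q) := by
    intro q hq'
    rw [hFF _ (inv_ne hr hq'), inv_inv hr hq', dsq_inv hq']
    have := (dsq_pos hq').ne'
    have := hr.ne'
    field_simp
  refine ⟨?_, ?_, ?_⟩
  · rw [hF _ hq, hqq, hb.1, mul_zero]
  · have h1 : HasFDerivAt F' (0 : ℝ × ℝ →L[ℝ] ℝ) (inv o r (inv o r p₀)) := by rw [hqq]; exact hb.2.1
    have h2 := h1.comp (inv o r p₀) (differentiableAt_inv (r := r) hq).hasFDerivAt
    have h3 : DifferentiableAt ℝ (fun q => (dsq o q / r ^ 4) ^ 2) (inv o r p₀) := by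
      unfold dsq; fun_prop
    have h4 := h3.hasFDerivAt.mul h2
    have h5 : F =ᶠ[𝓝 (inv o r p₀)] fun q => (dsq o q / r ^ 4) ^ 2 * (F' ∘ inv o r) q := by
      filter_upwards [isOpen_ne.mem_nhds hq] with q hq'
      exact hF q hq'
    refine (h4.congr_of_eventuallyEq h5).congr_fderiv ?_
    have h6 : (F' ∘ inv o r) (inv o r p₀) = 0 := by
      show F' (inv o r (inv o r p₀)) = 0
      rw [hqq]; exact hb.1
    rw [h6]; simp
  · have h1 : Tendsto (inv o r) (𝓝[≠] p₀) (𝓝[≠] (inv o r p₀)) := by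
      rw [tendsto_nhdsWithin_iff]
      refine ⟨(differentiableAt_inv hp).continuousAt.tendsto.mono_left nhdsWithin_le_nhds, ?_⟩
      filter_upwards [self_mem_nhdsWithin,
        mem_nhdsWithin_of_mem_nhds (isOpen_ne.mem_nhds hp)] with p hp1 hp2 h
      apply hp1
      have h' : inv o r p = inv o r p₀ := h
      have := congrArg (inv o r) h'
      rwa [inv_inv hr hp2, hqq] at this
    refine h1.frequently ?_
    refine (hb.2.2.and_eventually
      (mem_nhdsWithin_of_mem_nhds (isOpen_ne.mem_nhds hp))).mono ?_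
    rintro p ⟨h2, h3⟩
    have h4 := hFF p h3
    rw [h2] at h4
    have h5 : dsq o p ^ 2 ≠ 0 := pow_ne_zero _ (dsq_pos h3).ne'
    exact (mul_eq_zero.1 h4.symm).resolve_left h5

lemma hasDerivAt_quartic (c0 c1 c2 c3 c4 : ℝ) :
    HasDerivAt (fun t : ℝ => c0 + c1 * t + c2 * t ^ 2 + c3 * t ^ 3 + c4 * t ^ 4) c1 0 := by
  have h := ((((hasDerivAt_const (0 : ℝ) c0).add ((hasDerivAt_id (0 : ℝ)).const_mul c1)).add
    ((hasDerivAt_pow 2 (0 : ℝ)).const_mul c2)).add ((hasDerivAt_pow 3 (0 : ℝ)).const_mul c3)).add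
    ((hasDerivAt_pow 4 (0 : ℝ)).const_mul c4)
  refine (h.congr_deriv ?_).congr_of_eventuallyEq (Eventually.of_forall fun t => ?_)
  · simp
  · simp

lemma deriv_fst {F : ℝ × ℝ → ℝ} {p : ℝ × ℝ} (h : HasFDerivAt F (0 : ℝ × ℝ →L[ℝ] ℝ) p) :
    HasDerivAt (fun t : ℝ => F (p.1 + t, p.2)) 0 0 := by
  have h1 : HasDerivAt (fun t : ℝ => ((p.1 + t, p.2) : ℝ × ℝ)) (1, 0) 0 :=
    ((hasDerivAt_id (0 : ℝ)).const_add p.1).prodMk (hasDerivAt_const _ _)
  have h2 : HasFDerivAt F (0 : ℝ × ℝ →L[ℝ] ℝ) (p.1 + (0 : ℝ), p.2) := by simpa using h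
  have h3 := HasFDerivAt.comp_hasDerivAt (0 : ℝ) h2 h1
  exact h3.congr_deriv (by simp)

lemma deriv_snd {F : ℝ × ℝ → ℝ} {p : ℝ × ℝ} (h : HasFDerivAt F (0 : ℝ × ℝ →L[ℝ] ℝ) p) :
    HasDerivAt (fun t : ℝ => F (p.1, p.2 + t)) 0 0 := by
  have h1 : HasDerivAt (fun t : ℝ => ((p.1, p.2 + t) : ℝ × ℝ)) (0, 1) 0 :=
    (hasDerivAt_const _ _).prodMk ((hasDerivAt_id (0 : ℝ)).const_add p.2)
  have h2 : HasFDerivAt F (0 : ℝ × ℝ →L[ℝ] ℝ) (p.1, p.2 + (0 : ℝ)) := by simpa using h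
  have h3 := HasFDerivAt.comp_hasDerivAt (0 : ℝ) h2 h1
  exact h3.congr_deriv (by simp)

lemma grad {l u v a b c d e f : ℝ} {p : ℝ × ℝ}
    (h : HasFDerivAt (pol l u v a b c d e f) (0 : ℝ × ℝ →L[ℝ] ℝ) p) :
    4 * l * p.1 * (p.1 ^ 2 + p.2 ^ 2) + u * (p.1 ^ 2 + p.2 ^ 2) + 2 * p.1 * (u * p.1 + v * p.2) +
      2 * a * p.1 + b * p.2 + d = 0 ∧
    4 * l * p.2 * (p.1 ^ 2 + p.2 ^ 2) + v * (p.1 ^ 2 + p.2 ^ 2) + 2 * p.2 * (u * p.1 + v * p.2) +
      b * p.1 + 2 * c * p.2 + e = 0 := by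
  constructor
  · have h1 := deriv_fst h
    have h2 : (fun t : ℝ => pol l u v a b c d e f (p.1 + t, p.2)) = fun t => pol l u v a b c d e f p +
        (4 * l * p.1 * (p.1 ^ 2 + p.2 ^ 2) + u * (p.1 ^ 2 + p.2 ^ 2) +
          2 * p.1 * (u * p.1 + v * p.2) + 2 * a * p.1 + b * p.2 + d) * t +
        (l * (2 * (p.1 ^ 2 + p.2 ^ 2) + 4 * p.1 ^ 2) + (u * p.1 + v * p.2) + 2 * p.1 * u + a) * t ^ 2 +
        (4 * l * p.1 + u) * t ^ 3 + l * t ^ 4 := by
      funext t; simp only [pol]; ring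
    rw [h2] at h1
    exact (hasDerivAt_quartic _ _ _ _ _).unique h1
  · have h1 := deriv_snd h
    have h2 : (fun t : ℝ => pol l u v a b c d e f (p.1, p.2 + t)) = fun t => pol l u v a b c d e f p +
        (4 * l * p.2 * (p.1 ^ 2 + p.2 ^ 2) + v * (p.1 ^ 2 + p.2 ^ 2) +
          2 * p.2 * (u * p.1 + v * p.2) + b * p.1 + 2 * c * p.2 + e) * t +
        (l * (2 * (p.1 ^ 2 + p.2 ^ 2) + 4 * p.2 ^ 2) + (u * p.1 + v * p.2) + 2 * p.2 * v + c) * t ^ 2 +
        (4 * l * p.2 + v) * t ^ 3 + l * t ^ 4 := by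
      funext t; simp only [pol]; ring
    rw [h2] at h1
    exact (hasDerivAt_quartic _ _ _ _ _).unique h1

lemma pol_shift (l u v a b c d e f : ℝ) (o z : ℝ × ℝ) :
    pol l u v a b c d e f (o.1 + z.1, o.2 + z.2) =
    pol l (u + 4 * l * o.1) (v + 4 * l * o.2)
      (a + 4 * l * o.1 ^ 2 + 2 * l * (o.1 ^ 2 + o.2 ^ 2) + (u * o.1 + v * o.2) + 2 * u * o.1)
      (b + 8 * l * o.1 * o.2 + 2 * u * o.2 + 2 * v * o.1)
      (c + 4 * l * o.2 ^ 2 + 2 * l * (o.1 ^ 2 + o.2 ^ 2) + (u * o.1 + v * o.2) + 2 * v * o.2)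
      (d + 4 * l * (o.1 ^ 2 + o.2 ^ 2) * o.1 + 2 * (u * o.1 + v * o.2) * o.1 +
        (o.1 ^ 2 + o.2 ^ 2) * u + 2 * a * o.1 + b * o.2)
      (e + 4 * l * (o.1 ^ 2 + o.2 ^ 2) * o.2 + 2 * (u * o.1 + v * o.2) * o.2 +
        (o.1 ^ 2 + o.2 ^ 2) * v + b * o.1 + 2 * c * o.2)
      (pol l u v a b c d e f o) z := by
  simp only [pol]; ring

lemma pol_inv (l u v a b c d e f k : ℝ) (w : ℝ × ℝ) (hw : w.1 ^ 2 + w.2 ^ 2 ≠ 0) :
    pol f (k * d) (k * e) (k ^ 2 * a) (k ^ 2 * b) (k ^ 2 * c) (k ^ 3 * u) (k ^ 3 * v) (k ^ 4 * l) w =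
    (w.1 ^ 2 + w.2 ^ 2) ^ 2 * pol l u v a b c d e f
      (k / (w.1 ^ 2 + w.2 ^ 2) * w.1, k / (w.1 ^ 2 + w.2 ^ 2) * w.2) := by
  simp only [pol]
  field_simp
  ring

lemma pullback (l u v a b c d e f : ℝ) (o : ℝ × ℝ) {r : ℝ} (hr : 0 < r) :
    ∃ F', V F' ∧ (∀ p, p ≠ o → F' p = dsq o p ^ 2 * pol l u v a b c d e f (inv o r p)) ∧
      F' o = (r ^ 2) ^ 4 * l ∧
      (HasFDerivAt F' (0 : ℝ × ℝ →L[ℝ] ℝ) o → u + 4 * l * o.1 = 0 ∧ v + 4 * l * o.2 = 0) := by
  obtain ⟨a', b', c', d', e', f', h⟩ : ∃ a' b' c' d' e' f' : ℝ, ∀ z : ℝ × ℝ,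
      pol l u v a b c d e f (o.1 + z.1, o.2 + z.2) =
      pol l (u + 4 * l * o.1) (v + 4 * l * o.2) a' b' c' d' e' f' z :=
    ⟨_, _, _, _, _, _, fun z => pol_shift l u v a b c d e f o z⟩
  set u' := u + 4 * l * o.1 with hu'
  set v' := v + 4 * l * o.2 with hv'
  set k := r ^ 2 with hk
  have hk0 : 0 < k := by positivity
  refine ⟨fun p => pol f' (k * d') (k * e') (k ^ 2 * a') (k ^ 2 * b') (k ^ 2 * c') (k ^ 3 * u')
    (k ^ 3 * v') (k ^ 4 * l) (-o.1 + p.1, -o.2 + p.2), ?_, ?_, ?_, ?_⟩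
  · exact ⟨_, _, _, _, _, _, _, _, _, funext fun p => pol_shift f' (k * d') (k * e') (k ^ 2 * a')
      (k ^ 2 * b') (k ^ 2 * c') (k ^ 3 * u') (k ^ 3 * v') (k ^ 4 * l) (-o.1, -o.2) p⟩
  · intro p hp
    have h0 := (dsq_pos hp).ne'
    have h1 : (-o.1 + p.1) ^ 2 + (-o.2 + p.2) ^ 2 = dsq o p := by unfold dsq; ring
    have h2 := pol_inv l u' v' a' b' c' d' e' f' k (-o.1 + p.1, -o.2 + p.2) (by
      show (-o.1 + p.1) ^ 2 + (-o.2 + p.2) ^ 2 ≠ 0
      rw [h1]; exact h0)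
    simp only at h2
    rw [h1] at h2
    simp only
    rw [h2, ← h]
    congr 2
    unfold inv
    rw [← hk]
    refine Prod.ext ?_ ?_
    · simp only; ring
    · simp only; ring
  · simp only [pol]; ring
  · intro hd
    have hne : k ^ 3 ≠ 0 := by positivity
    constructor
    · have h1 := deriv_fst hd
      have h2 : (fun t : ℝ => pol f' (k * d') (k * e') (k ^ 2 * a') (k ^ 2 * b') (k ^ 2 * c')
          (k ^ 3 * u') (k ^ 3 * v') (k ^ 4 * l) (-o.1 + (o.1 + t, o.2).1, -o.2 + (o.1 + t, o.2).2)) =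
          fun t => k ^ 4 * l + k ^ 3 * u' * t + k ^ 2 * a' * t ^ 2 + k * d' * t ^ 3 + f' * t ^ 4 := by
        funext t; simp only [pol]; ring
      simp only at h1 h2
      rw [h2] at h1
      have h3 := (hasDerivAt_quartic _ _ _ _ _).unique h1
      exact (mul_eq_zero.1 h3).resolve_left hne
    · have h1 := deriv_snd hd
      have h2 : (fun t : ℝ => pol f' (k * d') (k * e') (k ^ 2 * a') (k ^ 2 * b') (k ^ 2 * c')
          (k ^ 3 * u') (k ^ 3 * v') (k ^ 4 * l) (-o.1 + (o.1, o.2 + t).1, -o.2 + (o.1, o.2 + t).2)) =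
          fun t => k ^ 4 * l + k ^ 3 * v' * t + k ^ 2 * c' * t ^ 2 + k * e' * t ^ 3 + f' * t ^ 4 := by
        funext t; simp only [pol]; ring
      simp only at h1 h2
      rw [h2] at h1
      have h3 := (hasDerivAt_quartic _ _ _ _ _).unique h1
      exact (mul_eq_zero.1 h3).resolve_left hne

/-- A function of the space which vanishes on the eight points or on their images under an
inversion has a bad point. -/
lemma exists_bad {F : ℝ × ℝ → ℝ} (hF : V F)
    (h : (∀ p ∈ pts, F p = 0) ∨ ∃ (o : ℝ × ℝ) (r : ℝ), 0 < r ∧ o ∉ pts ∧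
      ∀ p ∈ pts, F (inv o r p) = 0) : ∃ Z, Bad F Z := by
  have h5 : (Real.sqrt 5) ^ 2 = 5 := Real.sq_sqrt (by norm_num)
  rcases h with h | ⟨o, r, hr, ho, h⟩
  · obtain ⟨k, rfl⟩ := kernel hF h
    exact ⟨_, bad_base k (x := 1 + Real.sqrt 5) (by linear_combination h5)⟩
  · obtain ⟨l, u, v, a, b, c, d, e, f, rfl⟩ := hF
    obtain ⟨F', hF', hp, -, -⟩ := pullback l u v a b c d e f o hr
    obtain ⟨k, rfl⟩ := kernel hF' (fun p hpS => by
      have : p ≠ o := fun h' => ho (h' ▸ hpS)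
      rw [hp p this, h p hpS, mul_zero])
    have hb1 := bad_base k (x := 1 + Real.sqrt 5) (by linear_combination h5)
    have hb2 := bad_base k (x := 1 - Real.sqrt 5) (by linear_combination h5)
    have hs : 0 < Real.sqrt 5 := Real.sqrt_pos.2 (by norm_num)
    by_cases ho1 : ((1 + Real.sqrt 5, 0) : ℝ × ℝ) = o
    · have ho2 : ((1 - Real.sqrt 5, 0) : ℝ × ℝ) ≠ o := by
        rw [← ho1]
        intro h'
        have := congrArg Prod.fst h'
        simp only at this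
        linarith
      exact ⟨_, transfer hr hp ho2 hb2⟩
    · exact ⟨_, transfer hr hp ho1 hb1⟩

lemma bad_of_lies {F : ℝ × ℝ → ℝ} (hF : V F) {Γ : Set (ℝ × ℝ)} (hΓ : ∀ p ∈ Γ, F p = 0)
    (h : LiesUpToInversion pts Γ) : ∃ Z, Bad F Z := by
  refine exists_bad hF ?_
  rcases h with h | ⟨o, r, hr, ho, h⟩
  · exact Or.inl fun p hp => hΓ p (h hp)
  · exact Or.inr ⟨o, r, hr, ho, fun p hp => hΓ _ (h (Set.mem_image_of_mem _ hp))⟩

lemma not_ellipse {Γ : Set (ℝ × ℝ)} (hΓ : IsEllipse Γ) : ¬ LiesUpToInversion pts Γ := by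
  obtain ⟨m, a, b, c, -, -, rfl⟩ := hΓ
  intro h
  obtain ⟨Z, h1, h2, -⟩ := bad_of_lies (F := pol 0 0 0 a b c (-2 * a * m.1 - b * m.2)
    (-b * m.1 - 2 * c * m.2) (a * m.1 ^ 2 + b * m.1 * m.2 + c * m.2 ^ 2 - 1))
    ⟨_, _, _, _, _, _, _, _, _, rfl⟩ (fun p hp => by
      have : a * (p.1 - m.1) ^ 2 + b * (p.1 - m.1) * (p.2 - m.2) + c * (p.2 - m.2) ^ 2 = 1 := hp
      simp only [pol]
      linear_combination this) h
  obtain ⟨g1, g2⟩ := grad h2
  simp only [pol] at h1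
  have : (2 : ℝ) = 0 := by
    linear_combination (Z.1 - m.1) * g1 + (Z.2 - m.2) * g2 - 2 * h1
  norm_num at this

lemma not_circles {Γ : Set (ℝ × ℝ)} (hΓ : IsTwoDisjointCircles Γ) : ¬ LiesUpToInversion pts Γ := by
  obtain ⟨C₁, C₂, ⟨m, r, hr, rfl⟩, ⟨n, s, hs, rfl⟩, hd, rfl⟩ := hΓ
  intro h
  have key : ∀ p : ℝ × ℝ, pol 1 (-2 * (m.1 + n.1)) (-2 * (m.2 + n.2))
      (4 * m.1 * n.1 + (m.1 ^ 2 + m.2 ^ 2 - r ^ 2) + (n.1 ^ 2 + n.2 ^ 2 - s ^ 2))
      (4 * (m.1 * n.2 + m.2 * n.1))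
      (4 * m.2 * n.2 + (m.1 ^ 2 + m.2 ^ 2 - r ^ 2) + (n.1 ^ 2 + n.2 ^ 2 - s ^ 2))
      (-2 * ((n.1 ^ 2 + n.2 ^ 2 - s ^ 2) * m.1 + (m.1 ^ 2 + m.2 ^ 2 - r ^ 2) * n.1))
      (-2 * ((n.1 ^ 2 + n.2 ^ 2 - s ^ 2) * m.2 + (m.1 ^ 2 + m.2 ^ 2 - r ^ 2) * n.2))
      ((m.1 ^ 2 + m.2 ^ 2 - r ^ 2) * (n.1 ^ 2 + n.2 ^ 2 - s ^ 2)) p =
      (dsq m p - r ^ 2) * (dsq n p - s ^ 2) := by
    intro p; simp only [pol, dsq]; ring
  obtain ⟨Z, h1, h2, -⟩ := bad_of_lies ⟨_, _, _, _, _, _, _, _, _, rfl⟩ (fun p hp => by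
      rw [key p]
      rcases hp with hp | hp
      · have : dsq m p = r ^ 2 := hp
        rw [this]; ring
      · have : dsq n p = s ^ 2 := hp
        rw [this]; ring) h
  rw [key Z] at h1
  obtain ⟨g1, g2⟩ := grad h2
  have e1 : (Z.1 - m.1) * (dsq n Z - s ^ 2) + (Z.1 - n.1) * (dsq m Z - r ^ 2) = 0 := by
    simp only [dsq]; linear_combination g1 / 2
  have e2 : (Z.2 - m.2) * (dsq n Z - s ^ 2) + (Z.2 - n.2) * (dsq m Z - r ^ 2) = 0 := by
    simp only [dsq]; linear_combination g2 / 2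
  have both : dsq m Z - r ^ 2 = 0 ∧ dsq n Z - s ^ 2 = 0 := by
    rcases mul_eq_zero.1 h1 with h0 | h0
    · refine ⟨h0, ?_⟩
      have h3 : dsq m Z = (Z.1 - m.1) ^ 2 + (Z.2 - m.2) ^ 2 := rfl
      have h4 : r ^ 2 * (dsq n Z - s ^ 2) = 0 := by
        rw [h0] at e1 e2
        have : dsq m Z * (dsq n Z - s ^ 2) = 0 := by
          rw [h3]; linear_combination (Z.1 - m.1) * e1 + (Z.2 - m.2) * e2
        linear_combination this - (dsq n Z - s ^ 2) * h0
      exact (mul_eq_zero.1 h4).resolve_left (by positivity)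
    · refine ⟨?_, h0⟩
      have h3 : dsq n Z = (Z.1 - n.1) ^ 2 + (Z.2 - n.2) ^ 2 := rfl
      have h4 : s ^ 2 * (dsq m Z - r ^ 2) = 0 := by
        rw [h0] at e1 e2
        have : dsq n Z * (dsq m Z - r ^ 2) = 0 := by
          rw [h3]; linear_combination (Z.1 - n.1) * e1 + (Z.2 - n.2) * e2
        linear_combination this - (dsq m Z - r ^ 2) * h0
      exact (mul_eq_zero.1 h4).resolve_left (by positivity)
  have m1 : Z ∈ {p | dsq m p = r ^ 2} := by
    show dsq m Z = r ^ 2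
    linarith [both.1]
  have m2 : Z ∈ {p | dsq n p = s ^ 2} := by
    show dsq n Z = s ^ 2
    linarith [both.2]
  exact Set.disjoint_left.1 hd m1 m2

open MvPolynomial in
lemma aeval_pderiv (u v a b c d e f : ℝ) (P : Fin 3 → ℂ) :
    aeval P (pderiv 0 (cubicForm u v a b c d e f)) = u * (P 0 ^ 2 + P 1 ^ 2) +
        (u * P 0 + v * P 1) * (2 * P 0) + (2 * a * P 0 + b * P 1 + d * P 2) * P 2 ∧
    aeval P (pderiv 1 (cubicForm u v a b c d e f)) = v * (P 0 ^ 2 + P 1 ^ 2) +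
        (u * P 0 + v * P 1) * (2 * P 1) + (b * P 0 + 2 * c * P 1 + e * P 2) * P 2 ∧
    aeval P (pderiv 2 (cubicForm u v a b c d e f)) = a * P 0 ^ 2 + b * P 0 * P 1 + c * P 1 ^ 2 +
        2 * (d * P 0 + e * P 1) * P 2 + 3 * f * P 2 ^ 2 := by
  refine ⟨?_, ?_, ?_⟩ <;>
  · simp [cubicForm, pderiv_X, Derivation.leibniz, Derivation.leibniz_pow]
    ring

lemma realPoints_eq (u v a b c d e f : ℝ) (p : ℝ × ℝ) :
    MvPolynomial.eval ![p.1, p.2, 1] (cubicForm u v a b c d e f) = pol 0 u v a b c d e f p := by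
  simp [cubicForm, pol]; ring

lemma singular_of_grad {u v a b c d e f : ℝ} {Z : ℝ × ℝ} (h0 : pol 0 u v a b c d e f Z = 0)
    (h : HasFDerivAt (pol 0 u v a b c d e f) (0 : ℝ × ℝ →L[ℝ] ℝ) Z) :
    IsSingularAt (cubicForm u v a b c d e f) ![(Z.1 : ℂ), (Z.2 : ℂ), 1] := by
  obtain ⟨g1, g2⟩ := grad h
  refine ⟨fun h => ?_, ?_⟩
  · have := congrFun h 2
    simp at this
  · obtain ⟨k0, k1, k2⟩ := aeval_pderiv u v a b c d e f ![(Z.1 : ℂ), (Z.2 : ℂ), 1]
    intro i
    fin_cases i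
    · refine k0.trans ?_
      simp only [Matrix.cons_val_zero, Matrix.cons_val_one, Matrix.cons_val]
      have : ((u * (Z.1 ^ 2 + Z.2 ^ 2) + (u * Z.1 + v * Z.2) * (2 * Z.1) +
        (2 * a * Z.1 + b * Z.2 + d * 1) * 1 : ℝ) : ℂ) = 0 := by
        have : u * (Z.1 ^ 2 + Z.2 ^ 2) + (u * Z.1 + v * Z.2) * (2 * Z.1) +
          (2 * a * Z.1 + b * Z.2 + d * 1) * 1 = 0 := by linear_combination g1
        exact_mod_cast this
      push_cast at this
      exact this
    · refine k1.trans ?_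
      simp only [Matrix.cons_val_zero, Matrix.cons_val_one, Matrix.cons_val]
      have : ((v * (Z.1 ^ 2 + Z.2 ^ 2) + (u * Z.1 + v * Z.2) * (2 * Z.2) +
        (b * Z.1 + 2 * c * Z.2 + e * 1) * 1 : ℝ) : ℂ) = 0 := by
        have : v * (Z.1 ^ 2 + Z.2 ^ 2) + (u * Z.1 + v * Z.2) * (2 * Z.2) +
          (b * Z.1 + 2 * c * Z.2 + e * 1) * 1 = 0 := by linear_combination g2
        exact_mod_cast this
      push_cast at this
      exact this
    · refine k2.trans ?_
      simp only [Matrix.cons_val_zero, Matrix.cons_val_one, Matrix.cons_val]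
      have : ((a * Z.1 ^ 2 + b * Z.1 * Z.2 + c * Z.2 ^ 2 + 2 * (d * Z.1 + e * Z.2) * 1 +
        3 * f * 1 ^ 2 : ℝ) : ℂ) = 0 := by
        have : a * Z.1 ^ 2 + b * Z.1 * Z.2 + c * Z.2 ^ 2 + 2 * (d * Z.1 + e * Z.2) * 1 +
          3 * f * 1 ^ 2 = 0 := by
          simp only [pol] at h0
          linear_combination 3 * h0 - Z.1 * g1 - Z.2 * g2
        exact_mod_cast this
      push_cast at this
      exact this

lemma eval_smul (u v a b c d e f t x y : ℝ) :
    MvPolynomial.eval ![t * x, t * y, t] (cubicForm u v a b c d e f) =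
      t ^ 3 * pol 0 u v a b c d e f (x, y) := by
  simp [cubicForm, pol]; ring

lemma not_bad {u v a b c d e f : ℝ}
    (h : IsNonsingular (cubicForm u v a b c d e f) ∨ IsAcnodal (cubicForm u v a b c d e f))
    (Z : ℝ × ℝ) : ¬ Bad (pol 0 u v a b c d e f) Z := by
  rintro ⟨h0, h1, h2⟩
  have hs := singular_of_grad h0 h1
  rcases h with h | ⟨P, -, hP, hiso⟩
  · exact h _ hs
  · obtain ⟨t, ht⟩ := hP _ hs
    have t0 := ht 0
    have t1 := ht 1
    have t2 := ht 2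
    simp only [Matrix.cons_val_zero, Matrix.cons_val_one, Matrix.cons_val] at t0 t1 t2
    have hP2 : P 2 ≠ 0 := by
      intro h'
      rw [h'] at t2
      simp at t2
    have hP2c : (P 2 : ℂ) ≠ 0 := by exact_mod_cast hP2
    have ht' : t = (P 2 : ℂ)⁻¹ := by
      field_simp
      exact t2.symm
    have z0 : P 2 * Z.1 = P 0 := by
      have : (P 2 : ℂ) * (Z.1 : ℂ) = P 0 := by
        rw [t0, ht']; field_simp
      exact_mod_cast this
    have z1 : P 2 * Z.2 = P 1 := by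
      have : (P 2 : ℂ) * (Z.2 : ℂ) = P 1 := by
        rw [t1, ht']; field_simp
      exact_mod_cast this
    have hφ : Continuous (fun q : ℝ × ℝ => (![P 2 * q.1, P 2 * q.2, P 2] : Fin 3 → ℝ)) := by
      refine continuous_pi fun i => ?_
      fin_cases i <;> simp <;> fun_prop
    have hφZ : (![P 2 * Z.1, P 2 * Z.2, P 2] : Fin 3 → ℝ) = P := by
      rw [z0, z1]
      funext i
      fin_cases i <;> rfl
    have hT : Tendsto (fun q : ℝ × ℝ => (![P 2 * q.1, P 2 * q.2, P 2] : Fin 3 → ℝ)) (𝓝 Z) (𝓝 P) := by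
      have := hφ.tendsto Z
      rwa [hφZ] at this
    have h3 := hT.eventually hiso
    have h4 := (h2.and_eventually ((h3.filter_mono nhdsWithin_le_nhds).and self_mem_nhdsWithin))
    obtain ⟨q, hq0, hq1, hq2⟩ := h4.exists
    apply hq2
    obtain ⟨s, hs'⟩ := hq1 (by rw [eval_smul, hq0, mul_zero])
    have s0 := hs' 0
    have s1 := hs' 1
    have s2 := hs' 2
    simp only [Matrix.cons_val_zero, Matrix.cons_val_one, Matrix.cons_val] at s0 s1 s2
    have hs1 : s = 1 := by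
      have : (s - 1) * P 2 = 0 := by linarith
      have := (mul_eq_zero.1 this).resolve_right hP2
      linarith
    rw [hs1, one_mul, ← z0] at s0
    rw [hs1, one_mul, ← z1] at s1
    exact Prod.ext (mul_left_cancel₀ hP2 s0) (mul_left_cancel₀ hP2 s1)

lemma not_both_zero {u v a b c d e f : ℝ}
    (h : IsNonsingular (cubicForm u v a b c d e f) ∨ IsAcnodal (cubicForm u v a b c d e f)) :
    ¬ (u = 0 ∧ v = 0) := by
  rintro ⟨rfl, rfl⟩
  obtain ⟨x, y, hxy, hq⟩ : ∃ x y : ℂ, (x ≠ 0 ∨ y ≠ 0) ∧ a * x ^ 2 + b * x * y + c * y ^ 2 = 0 := by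
    by_cases ha : a = 0
    · exact ⟨1, 0, Or.inl one_ne_zero, by rw [ha]; simp⟩
    · obtain ⟨s, hs⟩ := IsAlgClosed.exists_pow_nat_eq ((b : ℂ) ^ 2 - 4 * a * c) (n := 2) (by norm_num)
      have hac : (a : ℂ) ≠ 0 := by exact_mod_cast ha
      refine ⟨(-b + s) / (2 * a), 1, Or.inr one_ne_zero, ?_⟩
      field_simp
      linear_combination hs
  have hs : IsSingularAt (cubicForm 0 0 a b c d e f) ![x, y, 0] := by
    refine ⟨fun h => ?_, ?_⟩
    · have h0 := congrFun h 0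
      have h1 := congrFun h 1
      simp at h0 h1
      rcases hxy with h' | h'
      · exact h' h0
      · exact h' h1
    · obtain ⟨k0, k1, k2⟩ := aeval_pderiv 0 0 a b c d e f ![x, y, 0]
      intro i
      fin_cases i
      · refine k0.trans ?_
        simp
      · refine k1.trans ?_
        simp
      · refine k2.trans ?_
        simpa using hq
  rcases h with h | ⟨P, hPs, hP, hiso⟩
  · exact h _ hs
  · obtain ⟨t, ht⟩ := hP _ hs
    have t0 := ht 0
    have t1 := ht 1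
    have t2 := ht 2
    simp only [Matrix.cons_val_zero, Matrix.cons_val_one, Matrix.cons_val] at t0 t1 t2
    have ht0 : t ≠ 0 := by
      rintro rfl
      rcases hxy with h' | h'
      · exact h' (by rw [t0, zero_mul])
      · exact h' (by rw [t1, zero_mul])
    have hP2 : P 2 = 0 := by
      have := (mul_eq_zero.1 t2.symm).resolve_left ht0
      exact_mod_cast this
    have hne : P 0 ≠ 0 ∨ P 1 ≠ 0 := by
      by_contra hcon
      push Not at hcon
      apply hPs.1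
      funext i
      fin_cases i
      · simp [hcon.1]
      · simp [hcon.2]
      · simp [hP2]
    have hT : Tendsto (fun s : ℝ => (![P 0 - s * P 1, P 1 + s * P 0, 0] : Fin 3 → ℝ)) (𝓝[≠] 0)
        (𝓝 P) := by
      have hφ : Continuous (fun s : ℝ => (![P 0 - s * P 1, P 1 + s * P 0, 0] : Fin 3 → ℝ)) := by
        refine continuous_pi fun i => ?_
        fin_cases i <;> simp <;> fun_prop
      have h1 := hφ.tendsto 0
      have h2 : (![P 0 - 0 * P 1, P 1 + 0 * P 0, 0] : Fin 3 → ℝ) = P := by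
        funext i
        fin_cases i
        · simp
        · simp
        · simp [hP2]
      rw [h2] at h1
      exact h1.mono_left nhdsWithin_le_nhds
    have h3 := (hT.eventually hiso).and self_mem_nhdsWithin
    obtain ⟨s, hs1, hs2⟩ := h3.exists
    obtain ⟨w, hw⟩ := hs1 (by simp [cubicForm])
    have w0 := hw 0
    have w1 := hw 1
    simp only [Matrix.cons_val_zero, Matrix.cons_val_one] at w0 w1
    have h4 : s * (P 0 ^ 2 + P 1 ^ 2) = 0 := by linear_combination P 0 * w1 - P 1 * w0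
    have h5 : P 0 ^ 2 + P 1 ^ 2 ≠ 0 := by
      rcases hne with h' | h' <;> positivity
    exact hs2 ((mul_eq_zero.1 h4).resolve_right h5)

lemma not_cubic {Γ : Set (ℝ × ℝ)} (hΓ : IsGoodCubic Γ) : ¬ LiesUpToInversion pts Γ := by
  obtain ⟨G, ⟨u, v, a, b, c, d, e, f, rfl⟩, hG, rfl⟩ := hΓ
  intro h
  obtain ⟨Z, hZ⟩ := bad_of_lies (F := pol 0 u v a b c d e f) ⟨_, _, _, _, _, _, _, _, _, rfl⟩
    (fun p hp => by
      have : MvPolynomial.eval ![p.1, p.2, 1] (cubicForm u v a b c d e f) = 0 := hp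
      rwa [realPoints_eq] at this) h
  exact not_bad hG Z hZ

lemma not_quartic {Γ : Set (ℝ × ℝ)} (hΓ : IsGoodQuartic Γ) : ¬ LiesUpToInversion pts Γ := by
  obtain ⟨G, ⟨u, v, a, b, c, d, e, f, rfl⟩, hG, o, r, hr, ho, rfl⟩ := hΓ
  intro h
  obtain ⟨F', hF', hp, hF'o, hgrad⟩ := pullback 0 u v a b c d e f o hr
  obtain ⟨Z, hZ⟩ := bad_of_lies hF' (fun p hp' => by
      rcases hp' with rfl | ⟨q, hq, rfl⟩
      · rw [hF'o, mul_zero]
      have hq0 : MvPolynomial.eval ![q.1, q.2, 1] (cubicForm u v a b c d e f) = 0 := hq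
      rw [realPoints_eq] at hq0
      have hqo : q ≠ o := fun h' => ho (h' ▸ hq)
      rw [hp _ (inv_ne hr hqo), inv_inv hr hqo, hq0, mul_zero]) h
  by_cases hZo : Z = o
  · subst hZo
    obtain ⟨h1, h2⟩ := hgrad hZ.2.1
    refine not_both_zero hG ⟨by linarith, by linarith⟩
  · exact not_bad hG _ (transfer hr hp hZo hZ)

lemma circle_eq {o : ℝ × ℝ} {r : ℝ} {p : ℝ × ℝ} : p ∈ {p | dsq o p = r ^ 2} ↔
    p.1 ^ 2 + p.2 ^ 2 - 2 * o.1 * p.1 - 2 * o.2 * p.2 + (o.1 ^ 2 + o.2 ^ 2 - r ^ 2) = 0 := by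
  show dsq o p = r ^ 2 ↔ _
  simp only [dsq]
  constructor <;> intro h <;> linear_combination h

lemma ncard_le_two {T : Set (ℝ × ℝ)} {x y : ℝ × ℝ} (h : T ⊆ {x, y}) : T.ncard ≤ 2 :=
  (Set.ncard_le_ncard h (Set.toFinite _)).trans
    ((Set.ncard_insert_le _ _).trans (by rw [Set.ncard_singleton]))

lemma no_mono (C : Set (ℝ × ℝ)) : ¬ IsMonochromaticCircle red blue C := by
  rintro ⟨⟨o, r, hr, rfl⟩, h3, hmono⟩
  rcases hmono with hm | hm
  · -- all on red: no blue point is on the circle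
    have nb : ∀ p ∈ (blue : Set (ℝ × ℝ)), p ∉ {p | dsq o p = r ^ 2} := by
      intro p hp hC
      have h := mem_red.1 (hm ⟨hC, Or.inr hp⟩)
      have h' := mem_blue.1 hp
      rcases h with rfl | rfl | rfl | rfl <;> norm_num at h'
    have n1 := nb (0, 0) (mem_blue.2 (by simp))
    have n2 := nb (0, 2) (mem_blue.2 (by simp))
    have n3 := nb (0, -2) (mem_blue.2 (by simp))
    have n4 := nb (2, -2) (mem_blue.2 (by simp))
    rw [circle_eq] at n1 n2 n3 n4
    have two : ∀ x y : ℝ × ℝ, (∀ p ∈ (red : Set (ℝ × ℝ)), p ∈ {p | dsq o p = r ^ 2} → p = x ∨ p = y) →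
        False := by
      intro x y hxy
      have : ({p | dsq o p = r ^ 2} ∩ ((red : Set (ℝ × ℝ)) ∪ blue)).ncard ≤ 2 :=
        ncard_le_two (x := x) (y := y) (fun p hp => by
          have := hxy p (hm hp) hp.1
          simpa using this)
      omega
    by_cases c1 : ((1, 0) : ℝ × ℝ) ∈ {p | dsq o p = r ^ 2} <;>
    by_cases c2 : ((2, 0) : ℝ × ℝ) ∈ {p | dsq o p = r ^ 2} <;>
    by_cases c3 : ((6, 0) : ℝ × ℝ) ∈ {p | dsq o p = r ^ 2} <;>
    by_cases c4 : ((3, 1) : ℝ × ℝ) ∈ {p | dsq o p = r ^ 2}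
    · rw [circle_eq] at c1 c2 c3 c4; norm_num at c1 c2 c3 c4; linarith
    · rw [circle_eq] at c1 c2 c3; norm_num at c1 c2 c3; linarith
    · rw [circle_eq] at c1 c2 c4; norm_num at c1 c2 c4
      apply n2; norm_num; linarith
    · exact two (1, 0) (2, 0) (by
        intro p hp hC; rcases mem_red.1 hp with rfl | rfl | rfl | rfl
        · exact Or.inl rfl
        · exact Or.inr rfl
        · exact absurd hC c3
        · exact absurd hC c4)
    · rw [circle_eq] at c1 c3 c4; norm_num at c1 c3 c4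
      apply n3; norm_num; linarith
    · exact two (1, 0) (6, 0) (by
        intro p hp hC; rcases mem_red.1 hp with rfl | rfl | rfl | rfl
        · exact Or.inl rfl
        · exact absurd hC c2
        · exact Or.inr rfl
        · exact absurd hC c4)
    · exact two (1, 0) (3, 1) (by
        intro p hp hC; rcases mem_red.1 hp with rfl | rfl | rfl | rfl
        · exact Or.inl rfl
        · exact absurd hC c2
        · exact absurd hC c3
        · exact Or.inr rfl)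
    · exact two (1, 0) (1, 0) (by
        intro p hp hC; rcases mem_red.1 hp with rfl | rfl | rfl | rfl
        · exact Or.inl rfl
        · exact absurd hC c2
        · exact absurd hC c3
        · exact absurd hC c4)
    · rw [circle_eq] at c2 c3 c4; norm_num at c2 c3 c4
      apply n4; norm_num; linarith
    · exact two (2, 0) (6, 0) (by
        intro p hp hC; rcases mem_red.1 hp with rfl | rfl | rfl | rfl
        · exact absurd hC c1
        · exact Or.inl rfl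
        · exact Or.inr rfl
        · exact absurd hC c4)
    · exact two (2, 0) (3, 1) (by
        intro p hp hC; rcases mem_red.1 hp with rfl | rfl | rfl | rfl
        · exact absurd hC c1
        · exact Or.inl rfl
        · exact absurd hC c3
        · exact Or.inr rfl)
    · exact two (2, 0) (2, 0) (by
        intro p hp hC; rcases mem_red.1 hp with rfl | rfl | rfl | rfl
        · exact absurd hC c1
        · exact Or.inl rfl
        · exact absurd hC c3
        · exact absurd hC c4)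
    · exact two (6, 0) (3, 1) (by
        intro p hp hC; rcases mem_red.1 hp with rfl | rfl | rfl | rfl
        · exact absurd hC c1
        · exact absurd hC c2
        · exact Or.inl rfl
        · exact Or.inr rfl)
    · exact two (6, 0) (6, 0) (by
        intro p hp hC; rcases mem_red.1 hp with rfl | rfl | rfl | rfl
        · exact absurd hC c1
        · exact absurd hC c2
        · exact Or.inl rfl
        · exact absurd hC c4)
    · exact two (3, 1) (3, 1) (by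
        intro p hp hC; rcases mem_red.1 hp with rfl | rfl | rfl | rfl
        · exact absurd hC c1
        · exact absurd hC c2
        · exact absurd hC c3
        · exact Or.inl rfl)
    · exact two (1, 0) (1, 0) (by
        intro p hp hC; rcases mem_red.1 hp with rfl | rfl | rfl | rfl
        · exact absurd hC c1
        · exact absurd hC c2
        · exact absurd hC c3
        · exact absurd hC c4)
  · have nr : ∀ p ∈ (red : Set (ℝ × ℝ)), p ∉ {p | dsq o p = r ^ 2} := by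
      intro p hp hC
      have h := mem_blue.1 (hm ⟨hC, Or.inl hp⟩)
      have h' := mem_red.1 hp
      rcases h with rfl | rfl | rfl | rfl <;> norm_num at h'
    have n1 := nr (1, 0) (mem_red.2 (by simp))
    have n2 := nr (2, 0) (mem_red.2 (by simp))
    have n3 := nr (6, 0) (mem_red.2 (by simp))
    have n4 := nr (3, 1) (mem_red.2 (by simp))
    rw [circle_eq] at n1 n2 n3 n4
    have two : ∀ x y : ℝ × ℝ, (∀ p ∈ (blue : Set (ℝ × ℝ)), p ∈ {p | dsq o p = r ^ 2} → p = x ∨ p = y) →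
        False := by
      intro x y hxy
      have : ({p | dsq o p = r ^ 2} ∩ ((red : Set (ℝ × ℝ)) ∪ blue)).ncard ≤ 2 :=
        ncard_le_two (x := x) (y := y) (fun p hp => by
          have := hxy p (hm hp) hp.1
          simpa using this)
      omega
    by_cases c1 : ((0, 0) : ℝ × ℝ) ∈ {p | dsq o p = r ^ 2} <;>
    by_cases c2 : ((0, 2) : ℝ × ℝ) ∈ {p | dsq o p = r ^ 2} <;>
    by_cases c3 : ((0, -2) : ℝ × ℝ) ∈ {p | dsq o p = r ^ 2} <;>
    by_cases c4 : ((2, -2) : ℝ × ℝ) ∈ {p | dsq o p = r ^ 2}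
    · rw [circle_eq] at c1 c2 c3 c4; norm_num at c1 c2 c3 c4; linarith
    · rw [circle_eq] at c1 c2 c3; norm_num at c1 c2 c3; linarith
    · rw [circle_eq] at c1 c2 c4; norm_num at c1 c2 c4
      apply n3; norm_num; linarith
    · exact two (0, 0) (0, 2) (by
        intro p hp hC; rcases mem_blue.1 hp with rfl | rfl | rfl | rfl
        · exact Or.inl rfl
        · exact Or.inr rfl
        · exact absurd hC c3
        · exact absurd hC c4)
    · rw [circle_eq] at c1 c3 c4; norm_num at c1 c3 c4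
      apply n2; norm_num; linarith
    · exact two (0, 0) (0, -2) (by
        intro p hp hC; rcases mem_blue.1 hp with rfl | rfl | rfl | rfl
        · exact Or.inl rfl
        · exact absurd hC c2
        · exact Or.inr rfl
        · exact absurd hC c4)
    · exact two (0, 0) (2, -2) (by
        intro p hp hC; rcases mem_blue.1 hp with rfl | rfl | rfl | rfl
        · exact Or.inl rfl
        · exact absurd hC c2
        · exact absurd hC c3
        · exact Or.inr rfl)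
    · exact two (0, 0) (0, 0) (by
        intro p hp hC; rcases mem_blue.1 hp with rfl | rfl | rfl | rfl
        · exact Or.inl rfl
        · exact absurd hC c2
        · exact absurd hC c3
        · exact absurd hC c4)
    · rw [circle_eq] at c2 c3 c4; norm_num at c2 c3 c4
      apply n4; norm_num; linarith
    · exact two (0, 2) (0, -2) (by
        intro p hp hC; rcases mem_blue.1 hp with rfl | rfl | rfl | rfl
        · exact absurd hC c1
        · exact Or.inl rfl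
        · exact Or.inr rfl
        · exact absurd hC c4)
    · exact two (0, 2) (2, -2) (by
        intro p hp hC; rcases mem_blue.1 hp with rfl | rfl | rfl | rfl
        · exact absurd hC c1
        · exact Or.inl rfl
        · exact absurd hC c3
        · exact Or.inr rfl)
    · exact two (0, 2) (0, 2) (by
        intro p hp hC; rcases mem_blue.1 hp with rfl | rfl | rfl | rfl
        · exact absurd hC c1
        · exact Or.inl rfl
        · exact absurd hC c3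
        · exact absurd hC c4)
    · exact two (0, -2) (2, -2) (by
        intro p hp hC; rcases mem_blue.1 hp with rfl | rfl | rfl | rfl
        · exact absurd hC c1
        · exact absurd hC c2
        · exact Or.inl rfl
        · exact Or.inr rfl)
    · exact two (0, -2) (0, -2) (by
        intro p hp hC; rcases mem_blue.1 hp with rfl | rfl | rfl | rfl
        · exact absurd hC c1
        · exact absurd hC c2
        · exact Or.inl rfl
        · exact absurd hC c4)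
    · exact two (2, -2) (2, -2) (by
        intro p hp hC; rcases mem_blue.1 hp with rfl | rfl | rfl | rfl
        · exact absurd hC c1
        · exact absurd hC c2
        · exact absurd hC c3
        · exact Or.inl rfl)
    · exact two (0, 0) (0, 0) (by
        intro p hp hC; rcases mem_blue.1 hp with rfl | rfl | rfl | rfl
        · exact absurd hC c1
        · exact absurd hC c2
        · exact absurd hC c3
        · exact absurd hC c4)

lemma red_not_circle {C : Set (ℝ × ℝ)} (hC : IsCircle C) : ¬ (red : Set (ℝ × ℝ)) ⊆ C := by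
  obtain ⟨o, r, hr, rfl⟩ := hC
  intro h
  have h1 := h (mem_red.2 (Or.inl rfl) : ((1, 0) : ℝ × ℝ) ∈ (red : Set (ℝ × ℝ)))
  have h2 := h (mem_red.2 (Or.inr (Or.inl rfl)) : ((2, 0) : ℝ × ℝ) ∈ (red : Set (ℝ × ℝ)))
  have h3 := h (mem_red.2 (Or.inr (Or.inr (Or.inl rfl))) : ((6, 0) : ℝ × ℝ) ∈ (red : Set (ℝ × ℝ)))
  rw [circle_eq] at h1 h2 h3
  norm_num at h1 h2 h3
  linarith

lemma blue_not_circle {C : Set (ℝ × ℝ)} (hC : IsCircle C) : ¬ (blue : Set (ℝ × ℝ)) ⊆ C := by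
  obtain ⟨o, r, hr, rfl⟩ := hC
  intro h
  have h1 := h (mem_blue.2 (Or.inl rfl) : ((0, 0) : ℝ × ℝ) ∈ (blue : Set (ℝ × ℝ)))
  have h2 := h (mem_blue.2 (Or.inr (Or.inl rfl)) : ((0, 2) : ℝ × ℝ) ∈ (blue : Set (ℝ × ℝ)))
  have h3 := h (mem_blue.2 (Or.inr (Or.inr (Or.inl rfl))) : ((0, -2) : ℝ × ℝ) ∈ (blue : Set (ℝ × ℝ)))
  rw [circle_eq] at h1 h2 h3
  norm_num at h1 h2 h3
  linarith

lemma red_not_line {L : Set (ℝ × ℝ)} (hL : IsLine L) : ¬ (red : Set (ℝ × ℝ)) ⊆ L := by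
  obtain ⟨a, b, c, hab, rfl⟩ := hL
  intro h
  have h1 : a * (1 : ℝ) + b * 0 = c := h (mem_red.2 (Or.inl rfl))
  have h2 : a * (2 : ℝ) + b * 0 = c := h (mem_red.2 (Or.inr (Or.inl rfl)))
  have h3 : a * (3 : ℝ) + b * 1 = c := h (mem_red.2 (Or.inr (Or.inr (Or.inr rfl))))
  rcases hab with h' | h'
  · exact h' (by linarith)
  · exact h' (by linarith)

lemma blue_not_line {L : Set (ℝ × ℝ)} (hL : IsLine L) : ¬ (blue : Set (ℝ × ℝ)) ⊆ L := by
  obtain ⟨a, b, c, hab, rfl⟩ := hL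
  intro h
  have h1 : a * (0 : ℝ) + b * 0 = c := h (mem_blue.2 (Or.inl rfl))
  have h2 : a * (0 : ℝ) + b * 2 = c := h (mem_blue.2 (Or.inr (Or.inl rfl)))
  have h3 : a * (2 : ℝ) + b * (-2) = c := h (mem_blue.2 (Or.inr (Or.inr (Or.inr rfl))))
  rcases hab with h' | h'
  · exact h' (by linarith)
  · exact h' (by linarith)

lemma disjoint_red_blue : Disjoint red blue := by
  rw [Finset.disjoint_left]
  intro p hp hp'
  have h := mem_red.1 (Finset.mem_coe.2 hp)
  have h' := mem_blue.1 (Finset.mem_coe.2 hp')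
  rcases h with rfl | rfl | rfl | rfl <;> norm_num at h'

/-- **The answer to the question is negative.** The four red points `(1,0), (2,0), (6,0), (3,1)` and
the four blue points `(0,0), (0,2), (0,-2), (2,-2)` have no monochromatic circle, neither colour class
lies on a circle or on a line, and no inversion (nor the identity) maps the eight points into an
ellipse, the union of two disjoint circles, a circular cubic that is elliptic or acnodal, or a
bicircular quartic of elliptic or acnodal type. -/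
theorem result : (Disjoint red blue ∧
    (∀ C, ¬ IsMonochromaticCircle red blue C) ∧
    (∀ Γ, IsLine Γ ∨ IsCircle Γ → ¬ (red : Set (ℝ × ℝ)) ⊆ Γ ∧ ¬ (blue : Set (ℝ × ℝ)) ⊆ Γ) ∧
    ∀ Γ, IsEllipse Γ ∨ IsTwoDisjointCircles Γ ∨ IsGoodCubic Γ ∨ IsGoodQuartic Γ →
      ¬ LiesUpToInversion ((red : Set (ℝ × ℝ)) ∪ blue) Γ) ∧
    ¬ Question := by
  have h1 : ∀ Γ, IsLine Γ ∨ IsCircle Γ → ¬ (red : Set (ℝ × ℝ)) ⊆ Γ ∧ ¬ (blue : Set (ℝ × ℝ)) ⊆ Γ := by
    rintro Γ (h | h)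
    · exact ⟨red_not_line h, blue_not_line h⟩
    · exact ⟨red_not_circle h, blue_not_circle h⟩
  have h2 : ∀ Γ, IsEllipse Γ ∨ IsTwoDisjointCircles Γ ∨ IsGoodCubic Γ ∨ IsGoodQuartic Γ →
      ¬ LiesUpToInversion ((red : Set (ℝ × ℝ)) ∪ blue) Γ := by
    rintro Γ (h | h | h | h)
    · exact not_ellipse h
    · exact not_circles h
    · exact not_cubic h
    · exact not_quartic h
  refine ⟨⟨disjoint_red_blue, no_mono, h1, h2⟩, fun hQ => ?_⟩
  rcases hQ red blue disjoint_red_blue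
    (fun Γ hΓ h => (h1 Γ hΓ).1 (Set.subset_union_left.trans h)) no_mono with ⟨C, hC, h⟩ | ⟨Γ, hΓ, h⟩
  · rcases h with h | h
    · exact (h1 C (Or.inr hC)).1 h
    · exact (h1 C (Or.inr hC)).2 h
  · exact h2 Γ hΓ h

end Pool.Agent.Results.MP_048963_co.EightPoints
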